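import Pool.Agent.Origami.Small

/-!
# Local `K_{3,3}` minors in the orbit graphs of primitive origamis in `H(2)`

For every `n ≥ 4` and every `SL(2,Z)`-orbit of primitive `n`-square origamis in `H(2)` other than
the B-orbit for `n = 5`, the orbit graph contains a `2`-local `K_{3,3}` minor.

The definitions are in `Pool/Agent/Origami/Defs.lean`.
-/

namespace Pool.Agent.Results.MP_7a6c3d_gt.LocalK33

open Equiv Equiv.Perm Pool.Agent.Origami

/-- the graph on an arbitrary set of origamis -/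
def gr {n : ℕ} (A : Set (Origami n)) : SimpleGraph A :=
  SimpleGraph.fromRel (fun y z => T n y = z ∨ S n y = z)

theorem orbit_eq {n : ℕ} {x o : Origami n} (ho : o ∈ sl2Orbit x) : sl2Orbit o = sl2Orbit x :=
  MulAction.orbit_eq_iff.2 ho

theorem transfer {n : ℕ} {x o : Origami n} (ho : o ∈ sl2Orbit x)
    (H : HasLocalMinor 2 (completeBipartiteGraph (Fin 3) (Fin 3)) (orbitGraph o)) :
    HasLocalMinor 2 (completeBipartiteGraph (Fin 3) (Fin 3)) (orbitGraph x) := by
  have e : sl2Orbit o = sl2Orbit x := orbit_eq ho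
  have H' : HasLocalMinor 2 (completeBipartiteGraph (Fin 3) (Fin 3)) (gr (sl2Orbit o)) := H
  rw [e] at H'
  exact H'

theorem ph_of {n : ℕ} {x : Origami n} (hp : IsPrimitive x) (h2 : InH2 x) : PH x := by
  obtain ⟨⟨⟨h, v⟩, ht⟩, rfl, hprim⟩ := hp
  obtain ⟨⟨⟨h', v'⟩, ht'⟩, he, h3⟩ := h2
  obtain ⟨g, h1, h2⟩ := Quotient.exact (s := conjSetoid n) he
  simp only at h1 h2 h3 hprim
  refine ⟨h, v, ⟨ht, rfl⟩, ?_, hprim⟩
  have := isThreeCycle_conj g _ h3
  rw [h1, h2]
  convert this using 1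
  group

theorem sign_of_cube {Ω : Type*} [Fintype Ω] [DecidableEq Ω] (g : Perm Ω)
    (H : ∀ x, g (g (g x)) = x) : sign g = 1 := by
  have h1 : g ^ 3 = 1 := by
    ext x
    simp [pow_succ, Perm.mul_apply, H]
  have h2 : (sign g) ^ 3 = 1 := by rw [← map_pow, h1, map_one]
  rcases Int.units_eq_one_or (sign g) with h | h
  · exact h
  · rw [h] at h2
    exact absurd h2 (by decide)

theorem cube33 {Ω : Type*} {h v : Perm Ω} {f : ℕ → Ω} (L : LPair h v 3 3 f) :
    (∀ x, h (h (h x)) = x) ∧ (∀ x, v (v (v x)) = x) := by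
  constructor
  · intro z
    obtain ⟨i, hi, rfl⟩ := L.surj z
    have hlt : ∀ i, i < 3 + 3 - 1 → hN 3 i < 3 + 3 - 1 := fun i hi => hN_lt (by norm_num) hi
    rw [L.h_eq i hi, L.h_eq _ (hlt _ hi), L.h_eq _ (hlt _ (hlt _ hi))]
    norm_num at hi
    interval_cases i <;> rfl
  · intro z
    obtain ⟨i, hi, rfl⟩ := L.surj z
    have hlt : ∀ i, i < 3 + 3 - 1 → vN 3 (3 + 3 - 1) i < 3 + 3 - 1 :=
      fun i hi => vN_lt (by norm_num) hi
    rw [L.v_eq i hi, L.v_eq _ (hlt _ hi), L.v_eq _ (hlt _ (hlt _ hi))]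
    norm_num at hi
    interval_cases i <;> rfl

theorem main {n : ℕ} (hn : 4 ≤ n) (x : Origami n) (hp : IsPrimitive x) (h2 : InH2 x)
    (hB : ¬ (n = 5 ∧ HasAltMonodromy x)) :
    HasLocalMinor 2 (completeBipartiteGraph (Fin 3) (Fin 3)) (orbitGraph x) := by
  have hPH := ph_of hp h2
  have G := goodSet_reps hPH
  obtain ⟨h, v, H⟩ := exists_rep x
  obtain ⟨p0, q0, hp0, hq0, hcard, hM1, hM2⟩ := G.exists_L (h := h) (v := v)
    ⟨x, mem_orbit_self x, H⟩
  rw [Fintype.card_fin] at hcard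
  -- choose the larger parameter as `p`
  obtain ⟨p, q, hqp, hp2, hq2, hpq, h', v', t1, t2, a, b, ⟨y, hy, Hy⟩, M⟩ :
      ∃ p q : ℕ, q ≤ p ∧ 2 ≤ p ∧ 2 ≤ q ∧ n + 1 = p + q ∧
        ∃ (h' v' : Perm (Fin n)) (t1' t2' : ℤ) (a' b' : ℤ → ℕ → Fin n), (h', v') ∈ reps x ∧
        Model h' v' 1 (q - 1) t1' p 1 t2' a' b' := by
    rcases le_total q0 p0 with hle | hle
    · exact ⟨p0, q0, hle, hp0, hq0, hcard, hM1⟩
    · exact ⟨q0, p0, hle, hq0, hp0, by omega, hM2⟩
  -- the L-shaped origami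
  have L := M.lpair
  have Ho : Rep ((T n ^ (-t2)) y) h' (v' * h' ^ t2) := by
    have := Hy.Tz (-t2)
    rwa [neg_neg] at this
  have ho : (T n ^ (-t2)) y ∈ sl2Orbit x := orbit_Tz hy _
  by_cases hp4 : 4 ≤ p
  · exact transfer ho (facts Ho L hp4).localMinor
  · have hp3 : p = 3 := by omega
    subst hp3
    have hq23 : q = 2 ∨ q = 3 := by omega
    rcases hq23 with rfl | rfl
    · have hn4 : n = 4 := by omega
      subst hn4
      obtain ⟨g, h1, h2⟩ := L.conj lpair4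
      have H4 : Rep ((T 4 ^ (-t2)) y) h4 v4 := Ho.conj_of g h1 h2
      exact transfer ho (localMinor4 H4)
    · exfalso
      have hn5 : n = 5 := by omega
      refine hB ⟨hn5, ?_⟩
      have hEv : Ev ((T n ^ (-t2)) y) :=
        ⟨h', v' * h' ^ t2, Ho, sign_of_cube _ (cube33 L).1, sign_of_cube _ (cube33 L).2⟩
      have hEx : Ev x := (Ev.of_orbit ho).2 hEv
      exact hEx.hasAltMonodromy hPH

/-- **Full answer to Q1.**  For every `n ≥ 4` and every primitive `n`-square origami `x` in `H(2)`,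
the orbit graph of the `SL(2,Z)`-orbit of `x` contains a `2`-local `K_{3,3}` minor, unless `n = 5`
and the monodromy group of `x` is the alternating group (the B-orbit for `n = 5`). -/
theorem result : ∀ n : ℕ, 4 ≤ n → ∀ x : Origami n, IsPrimitive x → InH2 x →
    ¬ (n = 5 ∧ HasAltMonodromy x) →
    HasLocalMinor 2 (completeBipartiteGraph (Fin 3) (Fin 3)) (orbitGraph x) :=
  fun _ hn x hp h2 hB => main hn x hp h2 hB

end Pool.Agent.Results.MP_7a6c3d_gt.LocalK33
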